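import Pool.Agent.H64.MM.Defs

/-!
# All moments: expansion into symbols
-/

set_option autoImplicit false

namespace Pool.Agent.H64.MM

open Finset Pool.Agent.W262.RK Pool.Agent.W108.RK Pool.Agent.W762.RK2

section locid

lemma lock {k : ℕ} (κ : Fin 3 → ℤ) {p : ℕ} (hp : p.Prime) (hk : ∀ i, ¬ (p : ℤ) ∣ κ i)
    (v : Vk k) (h g : Fin k → Bool) :
    (∏ l, ind (LL 3 κ true p (v l).1 (v l).2 (h l) (g l)) +
      ∏ l, ind (LL 3 κ false p (v l).1 (v l).2 (h l) (g l))) / 2 =
      ∑ x : Vk k, if par v x = false then (1 / 4) ^ k * Jr (∏ l, Kc κ (v l) (x l)) p *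
        ∏ l, (sx (x l).1 (h l) * sx (x l).2 (g l)) else 0 := by
  have h1 : ∀ neg, ∏ l, ind (LL 3 κ neg p (v l).1 (v l).2 (h l) (g l)) =
      ∑ x : Vk k, (if neg = true then sg (par v x) else 1) *
        ((1 / 4) ^ k * Jr (∏ l, Kc κ (v l) (x l)) p *
        ∏ l, (sx (x l).1 (h l) * sx (x l).2 (g l))) := by
    intro neg
    rw [prod_congr rfl (fun l _ => loc1 κ hp hk neg (v l) (h l) (g l)), Finset.prod_univ_sum,
      Fintype.piFinset_univ]
    refine sum_congr rfl fun x _ => ?_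
    rw [prod_mul_distrib, prod_mul_distrib, prod_mul_distrib, prod_const, card_univ,
      Fintype.card_fin, Jr_prod_left]
    have h2 : ∏ l, (if neg = true then sg (dot (v l) (x l)) else 1) =
        if neg = true then sg (par v x) else 1 := by
      cases neg
      · simp
      · simp [sg_par]
    rw [h2]
    ring
  rw [h1, h1, ← sum_add_distrib, sum_div]
  refine sum_congr rfl fun x _ => ?_
  cases par v x
  · simp [sg]
  · simp [sg]

end locid

section big

variable {J : Type} [Fintype J] [DecidableEq J] {z y k : ℕ}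

/-- first bit -/
def c1 (l : Fin k) (x : Option (J × Vk k)) : Bool := x.elim false fun a => (a.2 l).1

/-- second bit -/
def c2 (l : Fin k) (x : Option (J × Vk k)) : Bool := x.elim false fun a => (a.2 l).2

/-- first divisor -/
def E1 (ξ : Pr z y → Option (J × Vk k)) (l : Fin k) : ℕ := nb fun p => c1 l (ξ p)

/-- second divisor -/
def E2 (ξ : Pr z y → Option (J × Vk k)) (l : Fin k) : ℕ := nb fun p => c2 l (ξ p)

/-- the tuple -/
def Sk (ξ : Pr z y → Option (J × Vk k)) : J → ℕ := Dl fun p => (ξ p).map Prod.fst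

lemma E1_dvd (ξ : Pr z y → Option (J × Vk k)) (l : Fin k) : E1 ξ l ∣ ∏ j, Sk ξ j := by
  unfold Sk E1
  rw [prod_Dl]
  refine nb_dvd fun p hp => ?_
  cases h : ξ p with
  | none => rw [h] at hp; exact absurd hp (by simp [c1])
  | some a => rfl

lemma E2_dvd (ξ : Pr z y → Option (J × Vk k)) (l : Fin k) : E2 ξ l ∣ ∏ j, Sk ξ j := by
  unfold Sk E2
  rw [prod_Dl]
  refine nb_dvd fun p hp => ?_
  cases h : ξ p with
  | none => rw [h] at hp; exact absurd hp (by simp [c2])
  | some a => rfl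

lemma prod_Sk_ne (ξ : Pr z y → Option (J × Vk k)) : ∏ j, Sk ξ j ≠ 0 := by
  unfold Sk
  rw [prod_Dl]
  exact nb_ne_zero _

/-- the divisor pairs -/
def DP (s : J → ℕ) : Finset (ℕ × ℕ) := (∏ j, s j).divisors ×ˢ (∏ j, s j).divisors

lemma sum_bigk (F : (J → ℕ) → (Fin k → ℕ × ℕ) → ℝ) :
    ∑ s ∈ Tup J z y, ∑ d ∈ Fintype.piFinset (fun _ : Fin k => DP s), F s d =
      ∑ ξ : Pr z y → Option (J × Vk k), F (Sk ξ) (fun l => (E1 ξ l, E2 ξ l)) := by
  rw [Finset.sum_sigma']
  symm
  refine Finset.sum_bij (fun ξ _ => ⟨Sk ξ, fun l => (E1 ξ l, E2 ξ l)⟩) ?_ ?_ ?_ (fun _ _ => rfl)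
  · intro ξ _
    rw [Finset.mem_sigma, Fintype.mem_piFinset]
    refine ⟨Dl_mem _, fun l => ?_⟩
    unfold DP
    rw [Finset.mem_product]
    exact ⟨Nat.mem_divisors.2 ⟨E1_dvd ξ l, prod_Sk_ne ξ⟩,
      Nat.mem_divisors.2 ⟨E2_dvd ξ l, prod_Sk_ne ξ⟩⟩
  · intro ξ _ ξ' _ h
    have h1 : Sk ξ = Sk ξ' := congrArg Sigma.fst h
    have h2 : (fun l => (E1 ξ l, E2 ξ l)) = fun l => (E1 ξ' l, E2 ξ' l) := congrArg Sigma.snd h
    have h3 : ∀ l, E1 ξ l = E1 ξ' l := fun l => congrArg Prod.fst (congrFun h2 l)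
    have h4 : ∀ l, E2 ξ l = E2 ξ' l := fun l => congrArg Prod.snd (congrFun h2 l)
    funext p
    have e1 : (ξ p).map Prod.fst = (ξ' p).map Prod.fst := congrFun (Dl_inj h1) p
    have e2 : ∀ l, c1 l (ξ p) = c1 l (ξ' p) := fun l => congrFun (nb_inj (h3 l)) p
    have e3 : ∀ l, c2 l (ξ p) = c2 l (ξ' p) := fun l => congrFun (nb_inj (h4 l)) p
    cases hx : ξ p with
    | none =>
      cases hx' : ξ' p with
      | none => rfl
      | some a' => rw [hx, hx'] at e1; exact absurd e1 (by simp)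
    | some a =>
      cases hx' : ξ' p with
      | none => rw [hx, hx'] at e1; exact absurd e1 (by simp)
      | some a' =>
        rw [hx, hx'] at e1 e2 e3
        obtain ⟨j, v⟩ := a
        obtain ⟨j', v'⟩ := a'
        have e4 : j = j' := by simpa using e1
        have e5 : v = v' := funext fun l => Prod.ext (e2 l) (e3 l)
        rw [e4, e5]
  · rintro ⟨s, d⟩ hs
    rw [Finset.mem_sigma, Fintype.mem_piFinset] at hs
    obtain ⟨hs, hd⟩ := hs
    simp only at hs hd
    have hd1 : ∀ l, (d l).1 ∣ ∏ j, s j := fun l => by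
      have := hd l
      unfold DP at this
      exact (Nat.mem_divisors.1 (Finset.mem_product.1 this).1).1
    have hd2 : ∀ l, (d l).2 ∣ ∏ j, s j := fun l => by
      have := hd l
      unfold DP at this
      exact (Nat.mem_divisors.1 (Finset.mem_product.1 this).2).1
    have hPP : ∏ j, s j ∣ PP z y := by
      rw [← Dl_lab hs, prod_Dl]
      exact nb_dvd_PP _
    have hn : ∀ p : Pr z y, lab s p = none → ¬ (p : ℕ) ∣ ∏ j, s j := by
      intro p hp h
      rw [← Dl_lab hs, prod_Dl, dvd_nb, hp] at h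
      exact absurd h (by simp)
    set ξ : Pr z y → Option (J × Vk k) := fun p => (lab s p).map fun j =>
      (j, fun l => (decide ((p : ℕ) ∣ (d l).1), decide ((p : ℕ) ∣ (d l).2))) with hξ
    refine ⟨ξ, Finset.mem_univ _, ?_⟩
    have e1 : Sk ξ = s := by
      unfold Sk
      conv_rhs => rw [← Dl_lab hs]
      congr 1
      funext p
      show ((lab s p).map fun j => (j, fun l : Fin k =>
        (decide ((p : ℕ) ∣ (d l).1), decide ((p : ℕ) ∣ (d l).2)))).map Prod.fst = _
      cases lab s p <;> rfl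
    have e2 : ∀ l, E1 ξ l = (d l).1 := by
      intro l
      unfold E1
      conv_rhs => rw [← nb_eq ((hd1 l).trans hPP)]
      congr 1
      funext p
      show c1 l ((lab s p).map fun j => (j, fun l : Fin k =>
        (decide ((p : ℕ) ∣ (d l).1), decide ((p : ℕ) ∣ (d l).2)))) = _
      cases hp : lab s p with
      | none =>
        have : ¬ (p : ℕ) ∣ (d l).1 := fun h => hn p hp (h.trans (hd1 l))
        simp [c1, this]
      | some j => rfl
    have e3 : ∀ l, E2 ξ l = (d l).2 := by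
      intro l
      unfold E2
      conv_rhs => rw [← nb_eq ((hd2 l).trans hPP)]
      congr 1
      funext p
      show c2 l ((lab s p).map fun j => (j, fun l : Fin k =>
        (decide ((p : ℕ) ∣ (d l).1), decide ((p : ℕ) ∣ (d l).2)))) = _
      cases hp : lab s p with
      | none =>
        have : ¬ (p : ℕ) ∣ (d l).2 := fun h => hn p hp (h.trans (hd2 l))
        simp [c2, this]
      | some j => rfl
    have e4 : (fun l => (E1 ξ l, E2 ξ l)) = d := funext fun l => by rw [e2, e3]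
    show (⟨Sk ξ, fun l => (E1 ξ l, E2 ξ l)⟩ : Σ _ : J → ℕ, Fin k → ℕ × ℕ) = ⟨s, d⟩
    rw [e1, e4]

end big

section average

variable {J : Type} [Fintype J] [DecidableEq J] {z y : ℕ}

/-- the local indicator of the copies -/
noncomputable def Ilk (k : ℕ) (κ : J → Fin 3 → ℤ) (s : J → ℕ) (d : Fin k → ℕ × ℕ) (neg : Bool)
    (p : ℕ) : ℝ := ∏ l, Il (c3 J) κ s (d l) neg p

lemma NBk_eq (k : ℕ) (κ : J → Fin 3 → ℤ) {s : J → ℕ} (hs : s ∈ Tup J z y) :
    NBk k κ s = ∑ d ∈ Fintype.piFinset (fun _ : Fin k => DP s),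
      ∏ p ∈ (∏ j, s j).primeFactors, (Ilk k κ s d true p + Ilk k κ s d false p) / 2 := by
  classical
  have hne : ∏ j, s j ≠ 0 := Finset.prod_ne_zero_iff.2 fun j _ => (sqf_of_mem hs j).ne_zero
  have h1 : ∀ E : Finset ℕ, (NL (∏ j, s j) (LLs (c3 J) κ s E) : ℝ) =
      ∑ d ∈ DP s, ∏ p ∈ (∏ j, s j).primeFactors, Il (c3 J) κ s d (decide (p ∈ E)) p := by
    intro E
    unfold NL DP
    rw [Finset.card_filter]
    push_cast
    refine Finset.sum_congr rfl fun d _ => ?_
    unfold Il
    rw [prod_ind]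
    unfold ind LLs
    congr
  have h2 : ∀ E : Finset ℕ, (NL (∏ j, s j) (LLs (c3 J) κ s E) : ℝ) ^ k =
      ∑ d ∈ Fintype.piFinset (fun _ : Fin k => DP s),
        ∏ p ∈ (∏ j, s j).primeFactors, Ilk k κ s d (decide (p ∈ E)) p := by
    intro E
    rw [h1 E]
    have h3 := Finset.prod_univ_sum (fun _ : Fin k => DP s) (fun (_ : Fin k) (d : ℕ × ℕ) =>
      ∏ p ∈ (∏ j, s j).primeFactors, Il (c3 J) κ s d (decide (p ∈ E)) p)
    rw [prod_const, card_univ, Fintype.card_fin] at h3
    rw [h3]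
    refine Finset.sum_congr rfl fun d _ => ?_
    unfold Ilk
    rw [Finset.prod_comm]
  unfold NBk
  rw [Finset.sum_congr rfl fun E _ => h2 E, Finset.sum_comm, Finset.mul_sum]
  refine Finset.sum_congr rfl fun d _ => ?_
  have hP3 : P3 (c3 J) s = (∏ j, s j).primeFactors := by
    unfold P3
    congr 1
    have : univ.filter (fun j => (c3 J) j = 3) = univ := Finset.filter_true_of_mem fun _ _ => rfl
    rw [this]
  refine avg (P3 (c3 J) s) (∏ j, s j).primeFactors (by rw [hP3]) (Ilk k κ s d) ?_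
  intro p hp hpA
  rw [hP3] at hpA
  exact absurd hp hpA

end average

section final

variable {J : Type} [Fintype J] [DecidableEq J] {z y k : ℕ}

/-- the local term -/
noncomputable def Tmk (κ : J → Fin 3 → ℤ) (c : ℕ)
    (ξ : Pr z y → Option (J × Vk k)) (p : Pr z y) : ℝ :=
  (ξ p).elim 1 fun a => 1 / ((p : ℝ) - c) *
    ((∏ l, ind (LL 3 (κ a.1) true p (a.2 l).1 (a.2 l).2 (sgn p (E1 ξ l)) (sgn p (E2 ξ l))) +
      ∏ l, ind (LL 3 (κ a.1) false p (a.2 l).1 (a.2 l).2 (sgn p (E1 ξ l)) (sgn p (E2 ξ l)))) / 2)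

lemma lhs_eqk (κ : J → Fin 3 → ℤ) (c : ℕ) :
    ∑ s ∈ Tup J z y, NBk k κ s * ∏ j, gw 1 c (s j) =
      ∑ ξ : Pr z y → Option (J × Vk k), ∏ p, Tmk κ c ξ p := by
  have h1 : ∀ s ∈ Tup J z y, NBk k κ s * ∏ j, gw 1 c (s j) =
      ∑ d ∈ Fintype.piFinset (fun _ : Fin k => DP s),
        (∏ p ∈ (∏ j, s j).primeFactors, (Ilk k κ s d true p + Ilk k κ s d false p) / 2) *
          ∏ j, gw 1 c (s j) := by
    intro s hs
    rw [NBk_eq k κ hs, Finset.sum_mul]
  rw [Finset.sum_congr rfl h1, sum_bigk fun s d =>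
    (∏ p ∈ (∏ j, s j).primeFactors, (Ilk k κ s d true p + Ilk k κ s d false p) / 2) *
          ∏ j, gw 1 c (s j)]
  refine Finset.sum_congr rfl fun ξ _ => ?_
  have h2 : ∏ j, gw 1 c (Sk ξ j) = ∏ p : Pr z y, ((ξ p).map Prod.fst).elim 1
      fun _ => 1 / ((p : ℝ) - c) := prod_gw (fun _ => 1) c _
  have h3 : ∏ j, Sk ξ j = nb fun p => ((ξ p).map Prod.fst).isSome := prod_Dl _
  rw [h2, h3, prod_pf _ fun p => (Ilk k κ (Sk ξ) (fun l => (E1 ξ l, E2 ξ l)) true p +
    Ilk k κ (Sk ξ) (fun l => (E1 ξ l, E2 ξ l)) false p) / 2, ← Finset.prod_mul_distrib]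
  refine Finset.prod_congr rfl fun p _ => ?_
  unfold Tmk
  cases hx : ξ p with
  | none => simp
  | some a =>
    have h4 : ∀ neg, Ilk k κ (Sk ξ) (fun l => (E1 ξ l, E2 ξ l)) neg p =
        ∏ l, ind (LL 3 (κ a.1) neg p (a.2 l).1 (a.2 l).2 (sgn p (E1 ξ l)) (sgn p (E2 ξ l))) := by
      intro neg
      unfold Ilk
      refine Finset.prod_congr rfl fun l _ => ?_
      unfold Il
      have e1 : dv p (E1 ξ l : ℤ) = (a.2 l).1 := by
        have : c1 l (ξ p) = (a.2 l).1 := by rw [hx]; rfl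
        rw [← this]
        unfold dv
        rw [Bool.eq_iff_iff, decide_eq_true_iff, Int.natCast_dvd_natCast]
        exact dvd_nb _ p
      have e2 : dv p (E2 ξ l : ℤ) = (a.2 l).2 := by
        have : c2 l (ξ p) = (a.2 l).2 := by rw [hx]; rfl
        rw [← this]
        unfold dv
        rw [Bool.eq_iff_iff, decide_eq_true_iff, Int.natCast_dvd_natCast]
        exact dvd_nb _ p
      have e3 : ∀ j, (p : ℕ) ∣ Sk ξ j ↔ j = a.1 := by
        intro j
        unfold Sk Dl
        rw [dvd_nb, decide_eq_true_iff]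
        show (ξ p).map Prod.fst = some j ↔ j = a.1
        rw [hx]
        simp [eq_comm]
      congr 1
      simp only [e1, e2, e3, forall_eq]
      rfl
    simp only [h4]
    simp only [Option.map_some, Option.isSome_some, if_true, Option.elim]
    ring

lemma sum_Ik (F : J × Vk k × Vk k → ℝ) :
    ∑ i : Ik J k, F i.1 = ∑ r, if par r.2.1 r.2.2 = false then F r else 0 := by
  rw [← Finset.sum_filter]
  exact (Finset.sum_subtype (univ.filter fun r : J × Vk k × Vk k =>
    par r.2.1 r.2.2 = false) (fun x => by simp) F).symm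

/-- forget the character -/
def fgk (x : Option (Ik J k)) : Option (J × Vk k) :=
  x.map fun i => (i.1.1, i.1.2.1)

/-- the local factor -/
noncomputable def Gk (κ : J → Fin 3 → ℤ) (c : ℕ)
    (ξ : Pr z y → Option (J × Vk k)) (p : Pr z y) (x : Option (Ik J k)) : ℝ :=
  x.elim 1 fun i => 1 / ((p : ℝ) - c) * ((1 / 4) ^ k * Jr (κk κ i) p *
    ∏ l, (sx (i.1.2.2 l).1 (sgn p (E1 ξ l)) * sx (i.1.2.2 l).2 (sgn p (E2 ξ l))))

lemma sum_Gk (κ : J → Fin 3 → ℤ) (c : ℕ)
    (ξ : Pr z y → Option (J × Vk k)) (p : Pr z y) (hk : ∀ j i, ¬ ((p : ℕ) : ℤ) ∣ κ j i) :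
    ∑ x ∈ univ.filter (fun x : Option (Ik J k) => fgk x = ξ p), Gk κ c ξ p x =
      Tmk κ c ξ p := by
  rw [Finset.sum_filter, Fintype.sum_option]
  unfold Tmk
  cases hx : ξ p with
  | none => simp [fgk, Gk]
  | some a =>
    obtain ⟨j, v⟩ := a
    have h0 : (if fgk (none : Option (Ik J k)) = some (j, v) then Gk κ c ξ p none else 0) = 0 := by
      rw [if_neg]
      simp [fgk]
    rw [h0, zero_add]
    set F : J × Vk k × Vk k → ℝ := fun r : J × Vk k × Vk k =>
          if r.1 = j ∧ r.2.1 = v then 1 / ((p : ℝ) - c) * ((1 / 4) ^ k *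
            Jr (∏ l, Kc (κ r.1) (r.2.1 l) (r.2.2 l)) p *
            ∏ l, (sx (r.2.2 l).1 (sgn p (E1 ξ l)) * sx (r.2.2 l).2 (sgn p (E2 ξ l)))) else 0
      with hF
    have h1 : ∀ i : Ik J k, (if fgk (some i) = some (j, v) then Gk κ c ξ p (some i) else 0) =
        F i.1 := by
      intro i
      refine if_congr ?_ rfl rfl
      simp only [fgk, Option.map_some, Option.some.injEq, Prod.mk.injEq]
    refine (Finset.sum_congr rfl fun i _ => h1 i).trans ((sum_Ik F).trans ?_)
    rw [Fintype.sum_prod_type, Finset.sum_eq_single j]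
    · rw [Fintype.sum_prod_type, Finset.sum_eq_single v]
      · show _ = 1 / ((p : ℝ) - c) * _
        rw [lock (κ j) (Pr_prime p) (hk j) v, Finset.mul_sum]
        refine Finset.sum_congr rfl fun x _ => ?_
        simp only [hF, and_self, if_true, mul_ite, mul_zero]
      · intro v' _ hv'
        refine Finset.sum_eq_zero fun x _ => ?_
        simp [hF, hv']
      · intro h
        exact absurd (Finset.mem_univ _) h
    · intro j' _ hj'
      refine Finset.sum_eq_zero fun x _ => ?_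
      simp [hF, hj']
    · intro h
      exact absurd (Finset.mem_univ _) h

/-- the vector of a label -/
def vl (x : Option (J × Vk k)) : Vk k := fun l => (c1 l x, c2 l x)

lemma par_zero (x : Vk k) : par (fun _ => (false, false)) x = false := by
  unfold par dot
  simp

lemma Jr_sq {q p : Pr z y} (h : q ≠ p) : Jr (q : ℕ) p * Jr (q : ℕ) p = 1 := by
  have hnd : ¬ ((p : ℕ) : ℤ) ∣ ((q : ℕ) : ℤ) := by
    rw [Int.natCast_dvd_natCast]
    intro hd
    exact h (Subtype.ext ((Nat.prime_dvd_prime_iff_eq (Pr_prime p) (Pr_prime q)).1 hd).symm)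
  rw [← sg_sg0 (Pr_prime p) hnd]
  unfold sg
  split_ifs <;> norm_num

/-- powers of a sign -/
lemma sign_par (v x : Vk k) (s : ℝ) (hs : s = 1 ∨ s = -1) :
    (if par v x = true then s else 1) = ∏ l, (if dot (v l) (x l) = true then s else 1) := by
  rcases hs with hs | hs
  · subst hs; simp
  · subst hs
    have := sg_par v x
    unfold sg at this
    exact this

lemma Jr_pm {q p : Pr z y} (h : q ≠ p) : Jr (q : ℕ) p = 1 ∨ Jr (q : ℕ) p = -1 := by
  have h1 := Jr_sq h
  have h2 : (Jr (q : ℕ) p - 1) * (Jr (q : ℕ) p + 1) = 0 := by linear_combination h1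
  rcases mul_eq_zero.1 h2 with h3 | h3
  · left; linarith
  · right; linarith

lemma bits_eqk (q p : Pr z y) (v x : Vk k) (h : q = p → par v x = false) :
    (if par v x = true then Jr (q : ℕ) p else 1) =
      ∏ l, ((if (x l).1 = true then (if q ≠ p ∧ (v l).1 = true then Jr (q : ℕ) p else 1) else 1) *
      (if (x l).2 = true then (if q ≠ p ∧ (v l).2 = true then Jr (q : ℕ) p else 1) else 1)) := by
  by_cases hqp : q = p
  · rw [h hqp]
    simp [hqp]
  · rw [sign_par v x _ (Jr_pm hqp)]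
    refine Finset.prod_congr rfl fun l _ => ?_
    have hJ := Jr_sq hqp
    unfold dot
    generalize (x l).1 = a
    generalize (x l).2 = b
    generalize (v l).1 = c
    generalize (v l).2 = d
    cases a <;> cases b <;> cases c <;> cases d <;> simp [hqp, hJ]

lemma rhs_termk (κ : J → Fin 3 → ℤ) (c : ℕ)
    (ξ : Pr z y → Option (J × Vk k)) (l : Pr z y → Option (Ik J k))
    (h : ∀ p, fgk (l p) = ξ p) :
    (∏ i, gw ((1 / 4) ^ k) c (Dl l i)) * Pool.Agent.W262.RK.Sym (Lk (J := J)) (κk κ) (Dl l) =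
      ∏ p, Gk κ c ξ p (l p) := by
  rw [prod_gw (fun _ => (1 / 4) ^ k), Sym_Dl, ← Finset.prod_mul_distrib,
    ← Finset.prod_mul_distrib]
  refine Finset.prod_congr rfl fun p _ => ?_
  cases hl : l p with
  | none =>
    have h0 : ∀ q, lk (Lk (J := J) (k := k)) (l q) none = false := by
      intro q
      cases l q <;> rfl
    simp [h0, Gk]
  | some i =>
    have h1 : ∀ q, lk (Lk (J := J)) (l q) (some i) = par (vl (ξ q)) i.1.2.2 := by
      intro q
      rw [← h q]
      cases hq : l q with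
      | none =>
        have : vl (fgk (none : Option (Ik J k))) = fun _ => (false, false) := rfl
        rw [this, par_zero]
        rfl
      | some i' => rfl
    have h2 : ∏ q : Pr z y, (if lk (Lk (J := J)) (l q) (some i) = true then Jr (q : ℕ) p else 1) =
        ∏ m, (sx (i.1.2.2 m).1 (sgn p (E1 ξ m)) * sx (i.1.2.2 m).2 (sgn p (E2 ξ m))) := by
      have h3 : ∀ a : Bool, ∀ b : Pr z y → Bool, sx a (sgn p (nb b : ℤ)) =
          ∏ q : Pr z y, if a = true then (if q ≠ p ∧ b q = true then Jr (q : ℕ) p else 1)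
            else 1 := by
        intro a b
        unfold sx
        cases a
        · simp
        · simp only [if_true]
          exact sgn_nb b p
      unfold E1 E2
      simp only [h3]
      simp only [← Finset.prod_mul_distrib]
      rw [Finset.prod_comm]
      refine Finset.prod_congr rfl fun q _ => ?_
      rw [h1]
      refine bits_eqk q p _ _ fun hqp => ?_
      rw [hqp, ← h p, hl]
      exact i.2
    rw [h2]
    simp only [Gk, Option.elim]
    ring

end final

/-- expansion of the average over the signs of the `k`-th power into symbols -/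
theorem expk (k : ℕ) (J : Type) [Fintype J] [DecidableEq J] (κ : J → Fin 3 → ℤ) (c z y : ℕ)
    (hκ : ∀ j i, κ j i ≠ 0) (hκz : ∀ j i, (κ j i).natAbs ≤ z) :
    ∑ s ∈ Tup J z y, NBk k κ s * ∏ j, gw 1 c (s j) =
      ∑ d ∈ Tup (Ik J k) z y, (∏ i, gw ((1 / 4) ^ k) c (d i)) *
        Pool.Agent.W262.RK.Sym (Lk (J := J)) (κk κ) d := by
  classical
  rw [lhs_eqk, sum_Tup, ← Finset.sum_fiberwise univ
    (fun (l : Pr z y → Option (Ik J k)) => fun p => fgk (l p))]
  refine Finset.sum_congr rfl fun ξ _ => ?_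
  have h1 : (univ.filter fun l : Pr z y → Option (Ik J k) => (fun p => fgk (l p)) = ξ) =
      Fintype.piFinset (fun p => univ.filter (fun x : Option (Ik J k) => fgk x = ξ p)) := by
    ext l
    simp only [Finset.mem_filter, Finset.mem_univ, true_and, Fintype.mem_piFinset, funext_iff]
  have hk : ∀ p : Pr z y, ∀ j i, ¬ ((p : ℕ) : ℤ) ∣ κ j i := by
    intro p j i hd
    have hz : z < p := by
      have := p.2
      unfold PS at this
      exact (Finset.mem_Ioc.1 (Finset.mem_filter.1 this).1).1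
    have h3 := Nat.le_of_dvd (Int.natAbs_pos.mpr (hκ j i)) (Int.natCast_dvd.1 hd)
    have h4 := hκz j i
    omega
  rw [h1, Finset.prod_congr rfl fun p _ => (sum_Gk κ c ξ p (hk p)).symm, Finset.prod_univ_sum]
  refine Finset.sum_congr rfl fun l hl => ?_
  rw [Fintype.mem_piFinset] at hl
  exact (rhs_termk κ c ξ l fun p => (Finset.mem_filter.1 (hl p)).2).symm

end Pool.Agent.H64.MM
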