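import Pool.Agent.H64.MM.Defs

/-!
# All moments: the largest unlinked set
-/

set_option autoImplicit false

namespace Pool.Agent.H64.MM

open Finset Pool.Agent.W262.RK Pool.Agent.W762.RK2

lemma sg_sq (b : Bool) : sg b * sg b = 1 := by cases b <;> simp [sg]

lemma orth1 (a a' : Bool × Bool) :
    ∑ b : Bool × Bool, sg (dot a b) * sg (dot a' b) = if a = a' then 4 else 0 := by
  obtain ⟨a1, a2⟩ := a
  obtain ⟨b1, b2⟩ := a'
  have st : sg true = -1 := by simp [sg]
  have sf : sg false = 1 := by simp [sg]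
  simp only [Fintype.sum_prod_type, Fintype.sum_bool]
  cases a1 <;> cases a2 <;> cases b1 <;> cases b2 <;> simp [dot, st, sf] <;> norm_num

lemma orth2 (a a' : Bool × Bool) :
    ∑ b : Bool × Bool, sg (dot b a) * sg (dot b a') = if a = a' then 4 else 0 := by
  obtain ⟨a1, a2⟩ := a
  obtain ⟨b1, b2⟩ := a'
  have st : sg true = -1 := by simp [sg]
  have sf : sg false = 1 := by simp [sg]
  simp only [Fintype.sum_prod_type, Fintype.sum_bool]
  cases a1 <;> cases a2 <;> cases b1 <;> cases b2 <;> simp [dot, st, sf] <;> norm_num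

lemma prod_if4 {k : ℕ} (v w : Vk k) :
    ∏ l, (if v l = w l then (4 : ℝ) else 0) = if v = w then 4 ^ k else 0 := by
  by_cases h : v = w
  · subst h
    simp
  · rw [if_neg h]
    have h1 : ∃ l, v l ≠ w l := by
      by_contra hcon
      push Not at hcon
      exact h (funext hcon)
    obtain ⟨l, hl⟩ := h1
    exact prod_eq_zero (mem_univ l) (if_neg hl)

lemma orth1k {k : ℕ} (v w : Vk k) :
    ∑ x : Vk k, sg (par v x) * sg (par w x) = if v = w then 4 ^ k else 0 := by
  simp only [sg_par, ← prod_mul_distrib]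
  have h := Finset.prod_univ_sum (fun _ : Fin k => (univ : Finset (Bool × Bool)))
    (fun (l : Fin k) (b : Bool × Bool) => sg (dot (v l) b) * sg (dot (w l) b))
  rw [Fintype.piFinset_univ] at h
  rw [← h, prod_congr rfl fun l _ => orth1 (v l) (w l), prod_if4]

lemma orth2k {k : ℕ} (v w : Vk k) :
    ∑ x : Vk k, sg (par x v) * sg (par x w) = if v = w then 4 ^ k else 0 := by
  simp only [sg_par, ← prod_mul_distrib]
  have h := Finset.prod_univ_sum (fun _ : Fin k => (univ : Finset (Bool × Bool)))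
    (fun (l : Fin k) (b : Bool × Bool) => sg (dot b (v l)) * sg (dot b (w l)))
  rw [Fintype.piFinset_univ] at h
  rw [← h, prod_congr rfl fun l _ => orth2 (v l) (w l), prod_if4]

/-- the symplectic character -/
noncomputable def ch {k : ℕ} (s t : Vk k × Vk k) : ℝ := sg (par s.1 t.2) * sg (par t.1 s.2)

lemma orth {k : ℕ} (s s' : Vk k × Vk k) :
    ∑ t : Vk k × Vk k, ch s t * ch s' t = if s = s' then 16 ^ k else 0 := by
  have h1 : ∑ t : Vk k × Vk k, ch s t * ch s' t =
      (∑ v : Vk k, sg (par v s.2) * sg (par v s'.2)) *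
        ∑ x : Vk k, sg (par s.1 x) * sg (par s'.1 x) := by
    rw [Fintype.sum_prod_type, sum_mul_sum]
    refine sum_congr rfl fun v _ => sum_congr rfl fun x _ => ?_
    unfold ch
    ring
  rw [h1, orth1k, orth2k]
  obtain ⟨a, b⟩ := s
  obtain ⟨a', b'⟩ := s'
  simp only [Prod.mk.injEq]
  by_cases h2 : a = a'
  · by_cases h3 : b = b'
    · rw [if_pos h3, if_pos h2, if_pos ⟨h2, h3⟩, ← mul_pow]
      norm_num
    · rw [if_neg h3, zero_mul, if_neg]
      exact fun h => h3 h.2
  · rw [if_neg h2, mul_zero, if_neg]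
    exact fun h => h2 h.1

/-- totally isotropic sets -/
lemma card_iso {k : ℕ} (S : Finset (Vk k × Vk k))
    (hS : ∀ s ∈ S, ∀ t ∈ S, par s.1 t.2 = par t.1 s.2) : S.card ≤ 4 ^ k := by
  rcases Finset.eq_empty_or_nonempty S with h0 | h0
  · subst h0; simp
  have h1 : ∑ t : Vk k × Vk k, (∑ s ∈ S, ch s t) ^ 2 = 16 ^ k * S.card := by
    have e1 : ∀ t : Vk k × Vk k, (∑ s ∈ S, ch s t) ^ 2 = ∑ s ∈ S, ∑ s' ∈ S, ch s t * ch s' t := by
      intro t
      rw [pow_two, sum_mul_sum]
    rw [sum_congr rfl fun t _ => e1 t, sum_comm]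
    have e2 : ∀ s ∈ S, ∑ t : Vk k × Vk k, ∑ s' ∈ S, ch s t * ch s' t = 16 ^ k := by
      intro s hs
      rw [sum_comm, sum_congr rfl fun s' _ => orth s s']
      simp [hs]
    rw [sum_congr rfl e2, sum_const, nsmul_eq_mul, mul_comm]
  have h2 : (S.card : ℝ) * (S.card : ℝ) ^ 2 ≤ ∑ t : Vk k × Vk k, (∑ s ∈ S, ch s t) ^ 2 := by
    have e1 : ∀ t ∈ S, (∑ s ∈ S, ch s t) ^ 2 = (S.card : ℝ) ^ 2 := by
      intro t ht
      congr 1
      rw [sum_congr rfl (fun s hs => show ch s t = 1 by
        unfold ch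
        rw [hS s hs t ht]
        exact sg_sq _)]
      simp
    have e2 : ∑ t ∈ S, (∑ s ∈ S, ch s t) ^ 2 = (S.card : ℝ) * (S.card : ℝ) ^ 2 := by
      rw [sum_congr rfl e1, sum_const, nsmul_eq_mul]
    rw [← e2]
    exact sum_le_sum_of_subset_of_nonneg (subset_univ _) fun _ _ _ => by positivity
  rw [h1] at h2
  have h3 : (0 : ℝ) < S.card := by exact_mod_cast h0.card_pos
  have h4 : (S.card : ℝ) ^ 2 ≤ (4 ^ k) ^ 2 := by
    have h5 : (S.card : ℝ) * (S.card : ℝ) ^ 2 ≤ S.card * (4 ^ k) ^ 2 := by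
      refine h2.trans (le_of_eq ?_)
      rw [← pow_mul, mul_comm k 2, pow_mul]
      norm_num
      ring
    exact le_of_mul_le_mul_left h5 h3
  have h6 : (S.card : ℝ) ≤ 4 ^ k := by
    exact (le_abs_self _).trans (abs_le_of_sq_le_sq h4 (by positivity))
  exact_mod_cast h6

/-- the largest unlinked set -/
theorem combk (k : ℕ) (J : Type) [Fintype J] [DecidableEq J] (U : Finset (Ik J k))
    (hU : ∀ i ∈ U, ∀ j ∈ U, Lk i j = Lk j i) :
    ∑ _i ∈ U, ((1 / 4) ^ k : ℝ) ≤ Fintype.card J := by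
  classical
  have h1 : U.card ≤ Fintype.card J * 4 ^ k := by
    have e1 : ∀ j : J, (U.filter (fun i => i.1.1 = j)).card ≤ 4 ^ k := by
      intro j
      have e2 : ((U.filter (fun i => i.1.1 = j)).image (fun i => i.1.2)).card =
          (U.filter (fun i => i.1.1 = j)).card := by
        apply card_image_of_injOn
        intro a ha b hb hab
        have ha' := (mem_filter.1 (mem_coe.1 ha)).2
        have hb' := (mem_filter.1 (mem_coe.1 hb)).2
        apply Subtype.ext
        exact Prod.ext (ha'.trans hb'.symm) hab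
      rw [← e2]
      apply card_iso
      intro s hs t ht
      obtain ⟨a, ha, rfl⟩ := mem_image.1 hs
      obtain ⟨b, hb, rfl⟩ := mem_image.1 ht
      exact hU a (mem_filter.1 ha).1 b (mem_filter.1 hb).1
    have e3 := Finset.card_eq_sum_card_fiberwise (f := fun i : Ik J k => i.1.1) (s := U)
      (t := univ) (fun i _ => mem_coe.2 (mem_univ _))
    rw [e3]
    refine (sum_le_sum fun j _ => e1 j).trans ?_
    rw [sum_const, card_univ, smul_eq_mul]
  rw [sum_const, nsmul_eq_mul]
  have h2 : (U.card : ℝ) ≤ Fintype.card J * 4 ^ k := by exact_mod_cast h1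
  calc (U.card : ℝ) * (1 / 4) ^ k ≤ (Fintype.card J * 4 ^ k) * (1 / 4) ^ k :=
        mul_le_mul_of_nonneg_right h2 (by positivity)
    _ = Fintype.card J := by
        rw [mul_assoc, ← mul_pow]
        norm_num

end Pool.Agent.H64.MM
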