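import Mathlib
import Pool.Graph.R_seed8.W261.RT.Iso
import Pool.Agent.H64.MM.AVk

/-!
# All moments: twists by polynomials with rational roots
-/

set_option autoImplicit false

namespace Pool.Agent.H64.MM

open Finset Pool.Agent.W262.RK

/-- the theorem with all the parts -/
theorem avgk_all {J : Type} [Fintype J] [DecidableEq J] (k : ℕ) (hk : 1 ≤ k) (a : Fin 3 → ℤ)
    (α β : J → ℤ) (ha : ∀ k, a k ≠ 0) (hα : ∀ j, α j ≠ 0)
    (hR : ∀ j l, j ≠ l → Res α β j l ≠ 0)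
    (hF : ∀ t : ℤ, F4 (c3 J) a α β t 0 - F4 (c3 J) a α β t 1 = F4 (c3 J) a α β t 2) :
    ∃ C : ℝ, ∀ X : ℕ, ∑ t ∈ (Icc 1 X).filter (fun t : ℕ => ∀ j, ff α β t j ≠ 0),
      ((2 : ℝ) ^ Module.finrank ℤ
        (EAB (F4 (c3 J) a α β t 0) (F4 (c3 J) a α β t 1)).toAffine.Point) ^ k ≤ C * X :=
  avgk Pool.Agent.W214.RK2.desc4 Pool.Agent.W342.RK2.xcl Pool.Agent.W342.RK2.locl
    Pool.Agent.W125.RK2.sub4 (Pool.Agent.W372.RK2.cnt4_of Pool.Agent.W358.RK2.svr)
    Pool.Agent.W591.RK2.ru Pool.Agent.W358.RK2.gr k hk a α β ha hα hR hF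

/-- the product of the linear forms -/
def Pf {J : Type} [Fintype J] (α β : J → ℤ) (t : ℤ) : ℤ := ∏ j, (α j * t + β j)

lemma F4_c3 {J : Type} [Fintype J] [DecidableEq J] (a : Fin 3 → ℤ) (α β : J → ℤ) (t : ℤ)
    (k : Fin 3) : F4 (c3 J) a α β t k = a k * Pf α β t := by
  unfold F4 Pf
  have h : fs (c3 J) k = univ := by
    unfold fs
    exact Finset.filter_true_of_mem fun _ _ => Or.inr rfl
  rw [h]
  rfl

/-- both signs of `t` -/
theorem both {J : Type} [Fintype J] [DecidableEq J] (k : ℕ) (hk : 1 ≤ k) (A B : ℤ) (hA : A ≠ 0)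
    (hB : B ≠ 0) (hAB : A ≠ B) (α β : J → ℤ) (hα : ∀ j, α j ≠ 0)
    (hR : ∀ j l, j ≠ l → α j * β l ≠ α l * β j) :
    ∃ C : ℝ, ∀ X : ℕ, 1 ≤ X →
      ∑ t ∈ (Icc (-(X : ℤ)) X).filter (fun t : ℤ => Pf α β t ≠ 0), ((2 : ℝ) ^ Module.finrank ℤ
        (EAB (A * Pf α β t) (B * Pf α β t)).toAffine.Point) ^ k ≤ C * X := by
  classical
  set a : Fin 3 → ℤ := ![A, B, A - B] with ha
  have ha0 : ∀ k, a k ≠ 0 := by
    intro k
    fin_cases k
    · exact hA
    · exact hB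
    · exact sub_ne_zero.2 hAB
  have key : ∀ α β : J → ℤ, (∀ j, α j ≠ 0) → (∀ j l, j ≠ l → α j * β l ≠ α l * β j) →
      ∃ C : ℝ, 0 ≤ C ∧ ∀ X : ℕ, ∑ t ∈ (Icc 1 X).filter (fun t : ℕ => Pf α β t ≠ 0),
        ((2 : ℝ) ^ Module.finrank ℤ
          (EAB (A * Pf α β t) (B * Pf α β t)).toAffine.Point) ^ k ≤ C * X := by
    intro α β hα hR
    obtain ⟨C, hC⟩ := avgk_all k hk a α β ha0 hα (fun j l h => sub_ne_zero.2 (hR j l h))
      (fun t => by
        rw [F4_c3, F4_c3, F4_c3, ← sub_mul]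
        rfl)
    refine ⟨max C 0, le_max_right _ _, fun X => ?_⟩
    have h1 := hC X
    have h2 : C * (X : ℝ) ≤ max C 0 * X :=
      mul_le_mul_of_nonneg_right (le_max_left _ _) (Nat.cast_nonneg _)
    refine le_trans (le_of_eq ?_) (h1.trans h2)
    have h3 : (Icc 1 X).filter (fun t : ℕ => Pf α β t ≠ 0) =
        (Icc 1 X).filter (fun t : ℕ => ∀ j, ff α β t j ≠ 0) := by
      refine filter_congr fun t _ => ?_
      unfold Pf
      rw [prod_ne_zero_iff]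
      exact ⟨fun h j => h j (mem_univ _), fun h j _ => h j⟩
    rw [h3]
    refine sum_congr rfl fun t _ => ?_
    rw [F4_c3, F4_c3]
    rfl
  obtain ⟨C1, hC10, hC1⟩ := key α β hα hR
  obtain ⟨C2, hC20, hC2⟩ := key (fun j => -α j) β (fun j => neg_ne_zero.2 (hα j))
    (fun j l h h2 => hR j l h (by linarith))
  have hneg : ∀ t : ℤ, Pf (fun j => -α j) β t = Pf α β (-t) := by
    intro t
    unfold Pf
    refine prod_congr rfl fun j _ => ?_
    ring
  set P : ℤ → ℝ := fun t => if Pf α β t ≠ 0 then ((2 : ℝ) ^ Module.finrank ℤ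
        (EAB (A * Pf α β t) (B * Pf α β t)).toAffine.Point) ^ k else 0 with hP
  have hP0 : ∀ t, 0 ≤ P t := fun t => by
    simp only [hP]
    split_ifs <;> positivity
  refine ⟨C1 + C2 + P 0, fun X hX => ?_⟩
  have hXr : (1 : ℝ) ≤ X := by exact_mod_cast hX
  have e1 : ∑ t ∈ Icc 1 X, P (t : ℤ) ≤ C1 * X := by
    have h := hC1 X
    rw [sum_filter] at h
    exact h
  have e2 : ∑ t ∈ Icc 1 X, P (-(t : ℤ)) ≤ C2 * X := by
    have h := hC2 X
    rw [sum_filter] at h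
    have e : ∀ t : ℕ, (if Pf (fun j => -α j) β (t : ℤ) ≠ 0 then ((2 : ℝ) ^ Module.finrank ℤ
        (EAB (A * Pf (fun j => -α j) β (t : ℤ))
          (B * Pf (fun j => -α j) β (t : ℤ))).toAffine.Point) ^ k else 0) = P (-(t : ℤ)) := by
      intro t
      rw [hneg]
    rw [sum_congr rfl (fun t _ => e t)] at h
    exact h
  have hsub : Icc (-(X : ℤ)) X ⊆ ((Icc 1 X).image (fun t : ℕ => (t : ℤ)) ∪
      (Icc 1 X).image (fun t : ℕ => -(t : ℤ))) ∪ {0} := by
    intro t ht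
    rw [mem_Icc] at ht
    rw [mem_union, mem_union, mem_image, mem_image, mem_singleton]
    rcases lt_trichotomy t 0 with h | h | h
    · left; right
      exact ⟨t.natAbs, mem_Icc.2 (by omega), by omega⟩
    · right; exact h
    · left; left
      exact ⟨t.natAbs, mem_Icc.2 (by omega), by omega⟩
  have hun : ∀ S T : Finset ℤ, ∑ t ∈ S ∪ T, P t ≤ ∑ t ∈ S, P t + ∑ t ∈ T, P t := by
    intro S T
    rw [← sum_union_inter]
    exact le_add_of_nonneg_right (sum_nonneg fun t _ => hP0 t)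
  have e3 : ∑ t ∈ (Icc 1 X).image (fun t : ℕ => (t : ℤ)), P t = ∑ t ∈ Icc 1 X, P (t : ℤ) :=
    sum_image (fun i _ j _ hij => by exact_mod_cast hij)
  have e4 : ∑ t ∈ (Icc 1 X).image (fun t : ℕ => -(t : ℤ)), P t = ∑ t ∈ Icc 1 X, P (-(t : ℤ)) :=
    sum_image (fun i _ j _ hij => by simpa using hij)
  rw [sum_filter]
  show ∑ t ∈ Icc (-(X : ℤ)) X, P t ≤ (C1 + C2 + P 0) * X
  have h5 := (sum_le_sum_of_subset_of_nonneg hsub (fun t _ _ => hP0 t)).trans
    ((hun _ _).trans (add_le_add (hun _ _) le_rfl))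
  rw [e3, e4, sum_singleton] at h5
  have h6 : P 0 ≤ P 0 * X := le_mul_of_one_le_right (hP0 0) hXr
  linarith

/-- the quadratic twist by `d` of the curve `y² = x (x - a) (x - b)` -/
def Tw (a b d : ℚ) : WeierstrassCurve ℚ := ⟨0, -(a + b) * d, 0, a * b * d ^ 2, 0⟩

/-- the rank -/
noncomputable def rk (W : WeierstrassCurve ℚ) : ℕ := Module.finrank ℤ W.toAffine.Point

/-- scaling by a square does not change the rank -/
lemma rk_scale (A B : ℤ) (a b d w : ℚ) (hw : w ≠ 0) (h1 : a * d = A * w ^ 2)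
    (h2 : b * d = B * w ^ 2) : rk (Tw a b d) = rk (EAB A B) := by
  obtain ⟨e⟩ := Pool.Agent.W261.RT.iso (-((A : ℚ) + B)) ((A : ℚ) * B) 0 0 w⁻¹ (inv_ne_zero hw)
  have h3 : (⟨0, (-((A : ℚ) + B) + 3 * 0) / w⁻¹ ^ 2, 0, ((A : ℚ) * B + 2 * 0 * (-((A : ℚ) + B)) +
      3 * 0 ^ 2) / w⁻¹ ^ 4, (0 + 0 * ((A : ℚ) * B) + 0 ^ 2 * (-((A : ℚ) + B)) + 0 ^ 3) / w⁻¹ ^ 6⟩ :
      WeierstrassCurve ℚ) = Tw a b d := by
    unfold Tw
    ext
    · rfl
    · simp only [inv_pow, div_inv_eq_mul]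
      linear_combination h1 + h2
    · rfl
    · simp only [inv_pow, div_inv_eq_mul]
      linear_combination (-(A : ℚ) * w ^ 2) * h2 + (-(b * d)) * h1
    · simp
  rw [h3] at e
  unfold rk
  exact (LinearEquiv.finrank_eq e.toIntLinearEquiv).symm

/-- the product over the odd roots -/
lemma odd_roots (D : Polynomial ℚ) (hD : D ≠ 0) (hs : D.Splits) :
    ∃ (S : Finset ℚ) (q : ℚ) (G : ℚ → ℚ), q ≠ 0 ∧ ∀ t : ℚ, D.eval t ≠ 0 → G t ≠ 0 ∧
      D.eval t = q * (∏ ρ ∈ S, (t - ρ)) * (G t) ^ 2 := by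
  classical
  refine ⟨D.roots.toFinset.filter (fun ρ => Odd (D.roots.count ρ)), D.leadingCoeff,
    fun t => ∏ ρ ∈ D.roots.toFinset, (t - ρ) ^ (D.roots.count ρ / 2),
    Polynomial.leadingCoeff_ne_zero.2 hD, fun t ht => ?_⟩
  have h1 := hs.eval_eq_prod_roots t
  constructor
  · refine prod_ne_zero_iff.2 fun ρ hρ => pow_ne_zero _ fun h => ?_
    apply ht
    rw [sub_eq_zero] at h
    rw [h]
    exact (Polynomial.mem_roots hD).1 (Multiset.mem_toFinset.1 hρ)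
  · rw [h1, Finset.prod_multiset_map_count, mul_assoc, ← prod_pow, prod_filter,
      ← prod_mul_distrib]
    congr 1
    refine prod_congr rfl fun ρ _ => ?_
    rw [← pow_mul]
    rcases Nat.even_or_odd' (D.roots.count ρ) with ⟨m, hm | hm⟩
    · rw [if_neg (by rw [hm]; simp), hm, one_mul]
      congr 1
      omega
    · rw [if_pos (by rw [hm]; exact odd_two_mul_add_one m), hm, ← pow_succ']
      congr 1
      omega

/-- all the moments -/
theorem moments (k : ℕ) (hk : 1 ≤ k) (a b : ℚ) (ha : a ≠ 0) (hb : b ≠ 0) (hab : a ≠ b)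
    (D : Polynomial ℚ) (hD : D ≠ 0) (hs : D.Splits) : ∃ C : ℝ, ∀ X : ℕ, 1 ≤ X →
      ∑ t ∈ (Icc (-(X : ℤ)) X).filter (fun t : ℤ => D.eval (t : ℚ) ≠ 0),
        ((2 : ℝ) ^ rk (Tw a b (D.eval (t : ℚ)))) ^ k ≤ C * X := by
  classical
  obtain ⟨S, q, G, hq, hG⟩ := odd_roots D hD hs
  set J : Type := {ρ : ℚ // ρ ∈ S}
  set α : J → ℤ := fun ρ => (ρ.1.den : ℤ) with hα
  set β : J → ℤ := fun ρ => -ρ.1.num with hβ
  set d : ℚ := ∏ ρ ∈ S, (ρ.den : ℚ) with hd
  have hd0 : d ≠ 0 := prod_ne_zero_iff.2 fun ρ _ => by exact_mod_cast ρ.den_ne_zero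
  have hPf : ∀ t : ℤ, ∏ ρ ∈ S, ((t : ℚ) - ρ) = (Pf α β t : ℚ) / d := by
    intro t
    rw [hd, eq_div_iff hd0, ← prod_mul_distrib]
    unfold Pf
    push_cast
    rw [← Finset.prod_coe_sort S (fun ρ => ((t : ℚ) - ρ) * (ρ.den : ℚ))]
    refine prod_congr rfl fun ρ _ => ?_
    simp only [hα, hβ]
    push_cast
    have h1 := Rat.mul_den_eq_num ρ.1
    linear_combination -h1
  set x : ℚ := a * (q / d) with hx
  set y : ℚ := b * (q / d) with hy
  have hx0 : x ≠ 0 := mul_ne_zero ha (div_ne_zero hq hd0)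
  have hy0 : y ≠ 0 := mul_ne_zero hb (div_ne_zero hq hd0)
  have hxy : x ≠ y := fun h => hab (mul_right_cancel₀ (div_ne_zero hq hd0) h)
  set N : ℚ := (x.den : ℚ) * y.den with hN
  have hxd : (x.den : ℚ) ≠ 0 := by exact_mod_cast x.den_ne_zero
  have hyd : (y.den : ℚ) ≠ 0 := by exact_mod_cast y.den_ne_zero
  have hN0 : N ≠ 0 := mul_ne_zero hxd hyd
  set A : ℤ := x.num * x.den * y.den ^ 2 with hA
  set B : ℤ := y.num * y.den * x.den ^ 2 with hB
  have hAx : (A : ℚ) = x * N ^ 2 := by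
    rw [hA, hN]
    push_cast
    have h1 := Rat.mul_den_eq_num x
    linear_combination (-(x.den : ℚ) * y.den ^ 2) * h1
  have hBy : (B : ℚ) = y * N ^ 2 := by
    rw [hB, hN]
    push_cast
    have h1 := Rat.mul_den_eq_num y
    linear_combination (-(y.den : ℚ) * x.den ^ 2) * h1
  have hA0 : A ≠ 0 := by
    intro h
    have : (A : ℚ) = 0 := by exact_mod_cast h
    rw [hAx] at this
    exact mul_ne_zero hx0 (pow_ne_zero _ hN0) this
  have hB0 : B ≠ 0 := by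
    intro h
    have : (B : ℚ) = 0 := by exact_mod_cast h
    rw [hBy] at this
    exact mul_ne_zero hy0 (pow_ne_zero _ hN0) this
  have hAB : A ≠ B := by
    intro h
    have h1 : (A : ℚ) = B := by exact_mod_cast h
    rw [hAx, hBy] at h1
    exact hxy (mul_right_cancel₀ (pow_ne_zero _ hN0) h1)
  obtain ⟨C, hC⟩ := both (J := J) k hk A B hA0 hB0 hAB α β
    (fun ρ => by
      simp only [hα]
      exact_mod_cast ρ.1.den_ne_zero)
    (fun ρ σ h h2 => by
      simp only [hα, hβ] at h2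
      apply h
      apply Subtype.ext
      have h3 : (ρ.1.num : ℚ) * σ.1.den = σ.1.num * ρ.1.den := by
        have h4 : ρ.1.num * (σ.1.den : ℤ) = σ.1.num * (ρ.1.den : ℤ) := by linarith
        exact_mod_cast h4
      have h5 : (ρ.1.den : ℚ) ≠ 0 := by exact_mod_cast ρ.1.den_ne_zero
      have h6 : (σ.1.den : ℚ) ≠ 0 := by exact_mod_cast σ.1.den_ne_zero
      rw [← Rat.num_div_den ρ.1, ← Rat.num_div_den σ.1, div_eq_div_iff h5 h6]
      exact h3)
  refine ⟨C, fun X hX => le_trans ?_ (hC X hX)⟩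
  have hne : ∀ t : ℤ, D.eval (t : ℚ) ≠ 0 → Pf α β t ≠ 0 := by
    intro t ht h
    have h1 := (hG t ht).2
    rw [hPf, h] at h1
    apply ht
    rw [h1]
    simp
  have hrk : ∀ t : ℤ, D.eval (t : ℚ) ≠ 0 → rk (Tw a b (D.eval (t : ℚ))) =
      Module.finrank ℤ (EAB (A * Pf α β t) (B * Pf α β t)).toAffine.Point := by
    intro t ht
    obtain ⟨hG0, hGe⟩ := hG t ht
    refine rk_scale _ _ a b _ (G t / N) (div_ne_zero hG0 hN0) ?_ ?_
    · rw [hGe, hPf]
      push_cast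
      rw [hAx, hx]
      field_simp
    · rw [hGe, hPf]
      push_cast
      rw [hBy, hy]
      field_simp
  calc ∑ t ∈ (Icc (-(X : ℤ)) X).filter (fun t : ℤ => D.eval (t : ℚ) ≠ 0),
        ((2 : ℝ) ^ rk (Tw a b (D.eval (t : ℚ)))) ^ k
      = ∑ t ∈ (Icc (-(X : ℤ)) X).filter (fun t : ℤ => D.eval (t : ℚ) ≠ 0),
        ((2 : ℝ) ^ Module.finrank ℤ
          (EAB (A * Pf α β t) (B * Pf α β t)).toAffine.Point) ^ k := by
        refine sum_congr rfl fun t ht => ?_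
        rw [hrk t (mem_filter.1 ht).2]
    _ ≤ _ := by
        refine sum_le_sum_of_subset_of_nonneg ?_ fun _ _ _ => by positivity
        intro t ht
        rw [mem_filter] at ht ⊢
        exact ⟨ht.1, hne t ht.2⟩

end Pool.Agent.H64.MM
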